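import Pool.Agent.J4H44.WS.Pt
import Pool.Agent.J4H44.DG.Fin

/-!
# Henselian discrete valuation rings: points or no sections

(helper44, project WS.)
-/

set_option autoImplicit false
set_option linter.all false

open Polynomial FF

namespace Pool.Agent.J4H44.WS

open Pool.Agent.J4H44.FP Pool.Agent.J4H44.DG

/-- simple roots of the reduction lift -/
theorem lift_root {B : Type} [CommRing B] [IsDomain B] [IsDiscreteValuationRing B]
    [HenselianLocalRing B] (f : B[X]) (hf : f.Monic)
    (hs : (f.map (IsLocalRing.residue B)).Separable) (c : B)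
    (hc : f.eval c ∈ IsLocalRing.maximalIdeal B) : ∃ x : B, f.eval x = 0 := by
  have h1 : (f.map (IsLocalRing.residue B)).eval (IsLocalRing.residue B c) = 0 := by
    rw [eval_map, eval₂_at_apply]
    exact (IsLocalRing.residue_eq_zero_iff _).2 hc
  have h2 : (derivative (f.map (IsLocalRing.residue B))).eval (IsLocalRing.residue B c) ≠ 0 := by
    have h3 := hs.eval₂_derivative_ne_zero (RingHom.id _) (x := IsLocalRing.residue B c) (by
      rw [eval₂_id]
      exact h1)
    rwa [eval₂_id] at h3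
  have h3 : IsUnit ((derivative f).eval c) := by
    by_contra h
    apply h2
    rw [derivative_map, eval_map, eval₂_at_apply]
    exact (IsLocalRing.residue_eq_zero_iff _).2 ((IsLocalRing.mem_maximalIdeal _).2 h)
  obtain ⟨x, hx, -⟩ := HenselianLocalRing.is_henselian f hf c hc h3
  exact ⟨x, hx⟩

/-- roots of units -/
theorem lift_pow {B : Type} [CommRing B] [IsDomain B] [IsDiscreteValuationRing B]
    [HenselianLocalRing B] {n : ℕ} (hn : 0 < n) (hu : IsUnit (n : B)) (u y : B) (hy : IsUnit y)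
    (h : y ^ n - u ∈ IsLocalRing.maximalIdeal B) : ∃ z : B, z ^ n = u := by
  obtain ⟨z, hz, -⟩ := HenselianLocalRing.is_henselian (X ^ n - C u)
    (monic_X_pow_sub_C u hn.ne') y (by
      rw [eval_sub, eval_pow, eval_X, eval_C]
      exact h) (by
      rw [derivative_sub, derivative_X_pow, derivative_C, sub_zero, eval_mul, eval_C, eval_pow,
        eval_X]
      exact hu.mul (hy.pow _))
  refine ⟨z, ?_⟩
  rw [IsRoot.def, eval_sub, eval_pow, eval_X, eval_C, sub_eq_zero] at hz
  exact hz

/-- points or no sections -/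
theorem dich (n D : ℕ) (hn : 1 < n) (hsq : Squarefree n) (hnD : n ∣ D) (hD : 3 ≤ D) :
    ∃ N : ℕ, ∀ (B L : Type) [CommRing B] [IsDomain B] [IsDiscreteValuationRing B]
      [HenselianLocalRing B] [Finite (IsLocalRing.ResidueField B)] [Field L] [CharZero L]
      [Algebra B L] [IsFractionRing B L], IsUnit (n : B) →
      N < Nat.card (IsLocalRing.ResidueField B) →
      ∀ f : B[X], f.Monic → (f.map (IsLocalRing.residue B)).Separable → f.natDegree = D →
      ∀ a : L, a ≠ 0 →
        (∃ x y : L, a * y ^ n = (f.map (algebraMap B L)).eval x) ∨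
          FineN n a (f.map (algebraMap B L)) := by
  obtain ⟨N, hN⟩ := exists_point n D (by omega) (by omega)
  refine ⟨N, ?_⟩
  intro B L _ _ _ _ _ _ _ _ _ hu hcard f hf hs hfD a ha
  have hBL : Function.Injective (algebraMap B L) := IsFractionRing.injective B L
  obtain ⟨ϖ, hϖ⟩ := IsDiscreteValuationRing.exists_irreducible B
  have hϖ0 : algebraMap B L ϖ ≠ 0 := by
    rw [Ne, map_eq_zero_iff _ hBL]
    exact hϖ.ne_zero
  obtain ⟨t, M, hat⟩ := Pool.Agent.W623.SecC.exists_unit_zpow ϖ hϖ a ha
  by_cases hroot : ∃ c : B, f.eval c ∈ IsLocalRing.maximalIdeal B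
  · obtain ⟨c, hc⟩ := hroot
    obtain ⟨x, hx⟩ := lift_root f hf hs c hc
    left
    refine ⟨algebraMap B L x, 0, ?_⟩
    rw [zero_pow (by omega), mul_zero, eval_map, eval₂_at_apply, hx, map_zero]
  push Not at hroot
  by_cases hM : (n : ℤ) ∣ M
  · left
    obtain ⟨j, rfl⟩ := hM
    have hnκ : ((n : ℕ) : IsLocalRing.ResidueField B) ≠ 0 := by
      intro h
      rw [← map_natCast (IsLocalRing.residue B), IsLocalRing.residue_eq_zero_iff] at h
      exact (IsLocalRing.mem_maximalIdeal _).1 h hu
    obtain ⟨x₀, y₀, hxy⟩ := hN (IsLocalRing.ResidueField B) hnκ hcard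
      (f.map (IsLocalRing.residue B)) hs (by rw [hf.natDegree_map, hfD])
      (IsLocalRing.residue B (t : B)) (by
        rw [Ne, IsLocalRing.residue_eq_zero_iff]
        intro h
        exact (IsLocalRing.mem_maximalIdeal _).1 h t.isUnit)
    obtain ⟨x, rfl⟩ := IsLocalRing.residue_surjective x₀
    obtain ⟨y, rfl⟩ := IsLocalRing.residue_surjective y₀
    rw [eval_map, eval₂_at_apply, ← map_pow, ← map_mul] at hxy
    have h1 : (t : B) * y ^ n - f.eval x ∈ IsLocalRing.maximalIdeal B := by
      rw [← IsLocalRing.residue_eq_zero_iff, map_sub, hxy, sub_self]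
    have hy : IsUnit y := by
      by_contra h
      apply hroot x
      have h2 : y ∈ IsLocalRing.maximalIdeal B := (IsLocalRing.mem_maximalIdeal _).2 h
      have h3 : (t : B) * y ^ n ∈ IsLocalRing.maximalIdeal B :=
        Ideal.mul_mem_left _ _ (Ideal.pow_mem_of_mem _ h2 n (by omega))
      have h4 := sub_mem h3 h1
      rwa [sub_sub_cancel] at h4
    obtain ⟨z, hz⟩ := lift_pow (by omega) hu (((t⁻¹ : Bˣ) : B) * f.eval x) y hy (by
      have h2 : y ^ n - ((t⁻¹ : Bˣ) : B) * f.eval x =
          ((t⁻¹ : Bˣ) : B) * ((t : B) * y ^ n - f.eval x) := by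
        rw [mul_sub, ← mul_assoc, Units.inv_mul, one_mul]
      rw [h2]
      exact Ideal.mul_mem_left _ _ h1)
    refine ⟨algebraMap B L x, algebraMap B L z / algebraMap B L ϖ ^ j, ?_⟩
    rw [eval_map, eval₂_at_apply, hat, div_pow, ← map_pow, hz, map_mul]
    have h5 : algebraMap B L ϖ ^ ((n : ℤ) * j) = (algebraMap B L ϖ ^ j) ^ n := by
      rw [mul_comm, zpow_mul, zpow_natCast]
    have h6 : algebraMap B L (t : B) * algebraMap B L ((t⁻¹ : Bˣ) : B) = 1 := by
      rw [← map_mul, Units.mul_inv, map_one]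
    have h7 : (algebraMap B L ϖ ^ j) ^ n ≠ 0 := pow_ne_zero _ (zpow_ne_zero _ hϖ0)
    rw [h5, mul_assoc, mul_div_cancel₀ _ h7, ← mul_assoc, h6, one_mul]
  · right
    exact fine_dvr (by omega) hsq hu f (by rw [hf.leadingCoeff]; exact isUnit_one) hs
      (by rw [hfD]; exact hnD) (by rw [hfD]; exact hD) hroot ϖ hϖ a M hM (t : B) t.isUnit hat

end Pool.Agent.J4H44.WS
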