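import Pool.Agent.J4H11.RC.Wl

/-!
# Points of `c y^n = f(x)` over large finite fields

(helper44, project WS.)
-/

set_option autoImplicit false
set_option linter.all false

open Polynomial

namespace Pool.Agent.J4H44.WS

/-- `Y^n - g(x)` is irreducible if `g` has a simple root -/
theorem irr_of_simple {K : Type} [Field K] {n : ℕ} (hn : 0 < n) (g : K[X]) (θ : K)
    (h1 : g.IsRoot θ) (h2 : ¬ (X - C θ) ^ 2 ∣ g) : Irreducible (X ^ n - C g : K[X][X]) := by
  have hprime : Prime (X - C θ : K[X]) := prime_X_sub_C θ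
  have hP : (Ideal.span {(X - C θ : K[X])}).IsPrime :=
    (Ideal.span_singleton_prime (X_sub_C_ne_zero θ)).2 hprime
  have hm : (X ^ n - C g : K[X][X]).Monic := monic_X_pow_sub_C g hn.ne'
  have hnd : (X ^ n - C g : K[X][X]).natDegree = n := natDegree_X_pow_sub_C
  refine irreducible_of_eisenstein_criterion hP ?_ ?_ ?_ ?_ hm.isPrimitive
  · rw [hm.leadingCoeff]
    intro h
    exact hP.ne_top ((Ideal.eq_top_iff_one _).2 h)
  · intro i hi
    rw [degree_eq_natDegree hm.ne_zero, hnd, Nat.cast_lt] at hi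
    rw [coeff_sub, coeff_X_pow, if_neg hi.ne, zero_sub, coeff_C]
    split_ifs with h0
    · rw [Ideal.mem_span_singleton]
      exact (dvd_neg).2 (dvd_iff_isRoot.2 h1)
    · rw [neg_zero]
      exact Ideal.zero_mem _
  · rw [degree_eq_natDegree hm.ne_zero, hnd]
    exact_mod_cast hn
  · rw [coeff_sub, coeff_X_pow, if_neg hn.ne, zero_sub, coeff_C_zero, Ideal.span_singleton_pow,
      Ideal.mem_span_singleton, dvd_neg]
    exact h2

/-- points over large finite fields -/
theorem exists_point (n D : ℕ) (hn : 0 < n) (hD : 0 < D) :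
    ∃ N : ℕ, ∀ (F : Type) [Field F] [Finite F], (n : F) ≠ 0 → N < Nat.card F →
      ∀ f : F[X], f.Separable → f.natDegree = D → ∀ c : F, c ≠ 0 →
        ∃ x y : F, c * y ^ n = f.eval x := by
  refine ⟨Pool.Agent.R410.PW.WC n D (2 * n * D) ^ 2, ?_⟩
  intro F _ _ hnF hcard f hs hfD c hc
  classical
  haveI : Fintype F := Fintype.ofFinite F
  set K := AlgebraicClosure F with hK
  set w : ℕ := Pool.Agent.R410.PW.WC n D (2 * n * D) with hw
  set g : F[X] := C c⁻¹ * f with hg
  have hc' : c⁻¹ ≠ 0 := inv_ne_zero hc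
  have hgs : g.Separable := hs.unit_mul (isUnit_C.2 hc'.isUnit)
  have hgd : g.natDegree = D := by rw [hg, natDegree_C_mul hc', hfD]
  set P : F[X][X] := X ^ n - C g with hP
  have hPm : P.Monic := monic_X_pow_sub_C g hn.ne'
  have hPn : P.natDegree = n := natDegree_X_pow_sub_C
  have hPc : ∀ i, (P.coeff i).natDegree ≤ D := by
    intro i
    rw [hP, coeff_sub, coeff_X_pow, coeff_C]
    refine (natDegree_sub_le _ _).trans (max_le ?_ ?_)
    · by_cases h : i = n
      · rw [if_pos h, natDegree_one]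
        exact Nat.zero_le _
      · rw [if_neg h, natDegree_zero]
        exact Nat.zero_le _
    · by_cases h : i = 0
      · rw [if_pos h, hgd]
      · rw [if_neg h, natDegree_zero]
        exact Nat.zero_le _
  have hgK : (g.map (algebraMap F K)).Separable := hgs.map
  have hmap : P.map (mapRingHom (algebraMap F K)) = X ^ n - C (g.map (algebraMap F K)) := by
    rw [hP, Polynomial.map_sub, Polynomial.map_pow, map_X, map_C, coe_mapRingHom]
  obtain ⟨θ, hθ⟩ := IsAlgClosed.exists_root (g.map (algebraMap F K)) (by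
    rw [degree_map, degree_eq_natDegree hgs.ne_zero, hgd]
    exact_mod_cast hD.ne')
  have hirr : Irreducible (P.map (mapRingHom (algebraMap F K))) := by
    rw [hmap]
    refine irr_of_simple hn _ θ hθ ?_
    intro h
    have h1 := hgK.squarefree (X - C θ) (by rwa [← pow_two])
    exact not_isUnit_X_sub_C θ h1
  have key := Pool.Agent.J4H11.RC.weilU K P hPm n D hPn hn hPc hnF hirr
  have hpos : 0 < {z : F × F | evalEval z.1 z.2 P = 0}.ncard := by
    by_contra h0
    have h1 : {z : F × F | evalEval z.1 z.2 P = 0}.ncard = 0 := by omega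
    rw [h1, Nat.cast_zero, zero_sub, abs_neg, abs_of_nonneg (Nat.cast_nonneg _), ← hw] at key
    rw [Nat.card_eq_fintype_card] at hcard
    have h2 : (0 : ℝ) < √(Fintype.card F : ℝ) := Real.sqrt_pos.2 (by exact_mod_cast Fintype.card_pos)
    have h3 : (Fintype.card F : ℝ) = √(Fintype.card F : ℝ) * √(Fintype.card F : ℝ) :=
      (Real.mul_self_sqrt (Nat.cast_nonneg _)).symm
    have h4 : √(Fintype.card F : ℝ) ≤ w := by
      rw [h3] at key
      exact le_of_mul_le_mul_right (by simpa using key) h2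
    have h5 : (Fintype.card F : ℝ) ≤ (w : ℝ) ^ 2 := by
      rw [h3, pow_two]
      exact mul_self_le_mul_self h2.le h4
    have h6 : Fintype.card F ≤ w ^ 2 := by exact_mod_cast h5
    omega
  have hne : {z : F × F | evalEval z.1 z.2 P = 0}.Nonempty := by
    by_contra h
    rw [Set.not_nonempty_iff_eq_empty] at h
    rw [h, Set.ncard_empty] at hpos
    exact lt_irrefl _ hpos
  obtain ⟨⟨x, y⟩, hxy⟩ := hne
  refine ⟨x, y, ?_⟩
  have h1 : evalEval x y P = 0 := hxy
  rw [hP, evalEval_sub, evalEval_pow, evalEval_X, evalEval_C, sub_eq_zero] at h1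
  rw [h1, hg, eval_mul, eval_C, mul_inv_cancel_left₀ hc]

end Pool.Agent.J4H44.WS
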