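import Pool.Agent.J4H44.WS.Loc
import Pool.Agent.R925.L.Fin
import Pool.Agent.J4H44.DG.Num

/-!
# All twists `d y^ℓ = g(a x^m)`, `m = ℓ^j`

(helper44, project WS.)
-/

set_option autoImplicit false
set_option linter.all false

open Polynomial FF

namespace Pool.Agent.J4H44.WS

open Pool.Agent.J4H44.FP Pool.Agent.J4H44.DG Pool.Agent.Y157.PS

theorem hens (A : Type) [CommRing A] [IsLocalRing A]
    [IsAdicComplete (IsLocalRing.maximalIdeal A) A] : HenselianLocalRing A where
  is_henselian f hf a₀ h h' := HenselianRing.is_henselian (I := IsLocalRing.maximalIdeal A) f hf a₀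
    h (h'.map _)

theorem sep_comp {κ : Type} [Field κ] (h : κ[X]) (hs : h.Separable) (s : κ) (hs0 : s ≠ 0) :
    (h.comp (C s * X)).Separable := by
  obtain ⟨a, b, hab⟩ := hs
  refine ⟨a.comp (C s * X), b.comp (C s * X) * C s⁻¹, ?_⟩
  have h1 := congrArg (fun q => q.comp (C s * X)) hab
  simp only [add_comp, mul_comp, one_comp] at h1
  rw [derivative_comp, derivative_C_mul, derivative_X, mul_one]
  have h2 : (C s⁻¹ : κ[X]) * C s = 1 := by rw [← C_mul, inv_mul_cancel₀ hs0, C_1]
  linear_combination h1 + (b.comp (C s * X)) * (derivative h).comp (C s * X) * h2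

/-- `g(t x^m)` is separable if `g(x^m)` is -/
theorem sep_twist {κ : Type} [Field κ] (g : κ[X]) {m : ℕ} (hm : 0 < m)
    (hs : (expand κ m g).Separable) (t : κ) (ht : t ≠ 0) : (g.comp (C t * X ^ m)).Separable := by
  rw [← separable_map (algebraMap κ (AlgebraicClosure κ))]
  obtain ⟨s, hs1⟩ := IsAlgClosed.exists_pow_nat_eq (algebraMap κ (AlgebraicClosure κ) t) hm
  have hs0 : s ≠ 0 := by
    rintro rfl
    rw [zero_pow hm.ne'] at hs1
    exact ht ((_root_.map_eq_zero _).1 hs1.symm)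
  have h1 := sep_comp _ (hs.map (f := algebraMap κ (AlgebraicClosure κ))) s hs0
  have h2 : ((expand κ m g).map (algebraMap κ (AlgebraicClosure κ))).comp (C s * X) =
      (g.comp (C t * X ^ m)).map (algebraMap κ (AlgebraicClosure κ)) := by
    rw [expand_eq_comp_X_pow, Polynomial.map_comp, Polynomial.map_comp, comp_assoc]
    congr 1
    rw [Polynomial.map_pow, map_X, X_pow_comp, mul_pow, ← C_pow, hs1, Polynomial.map_mul, map_C,
      Polynomial.map_pow, map_X]
  rw [h2] at h1
  exact h1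

/-- `y` is algebraic over `k(x)` -/
theorem walg {k F : Type} [Field k] [Field F] [Algebra k F] {ℓ : ℕ} (hℓ : 0 < ℓ) (c : k)
    (hc : c ≠ 0) (p : k[X]) (x w : F) (hw : algebraMap k F c * w ^ ℓ = aeval x p) :
    IsAlgebraic (IntermediateField.adjoin k {x}) w := by
  refine isAlgebraic_iff_isIntegral.2 (IsIntegral.of_pow hℓ ?_)
  have h1 : w ^ ℓ ∈ IntermediateField.adjoin k {x} := by
    have h2 : w ^ ℓ = (algebraMap k F c)⁻¹ * aeval x p := by
      rw [← hw, inv_mul_cancel_left₀ ((_root_.map_ne_zero _).2 hc)]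
    rw [h2]
    refine mul_mem (inv_mem (IntermediateField.algebraMap_mem _ _)) ?_
    have h3 : aeval x p = algebraMap (IntermediateField.adjoin k {x}) F
        (aeval (IntermediateField.AdjoinSimple.gen k x) p) := by
      rw [← aeval_algebraMap_apply]
      rfl
    rw [h3]
    exact (aeval (IntermediateField.AdjoinSimple.gen k x) p).2
  exact isIntegral_algebraMap (x := (⟨_, h1⟩ : IntermediateField.adjoin k {x}))

/-- no place with residue field `k` -/
def NoRP (ℓ m : ℕ) {k : Type} [Field k] (a d : k) (g : k[X]) : Prop :=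
  ∀ (F : Type) [Field F] [Algebra k F] (x y : F),
    algebraMap k F d * y ^ ℓ = aeval (algebraMap k F a * x ^ m) g →
    ∀ O : ValuationSubring F, (∀ c : k, algebraMap k F c ∈ O) →
      ¬ ∀ u ∈ O, ∃ c : k, u - algebraMap k F c ∈ O.nonunits

theorem NoRP.pt {ℓ m : ℕ} {k : Type} [Field k] {a d : k} {g : k[X]} (h : NoRP ℓ m a d g) (x y : k)
    (hxy : d * y ^ ℓ = g.eval (a * x ^ m)) : False := by
  refine h k x y hxy ⊤ (fun c => trivial) fun u _ => ⟨u, ?_⟩
  rw [Algebra.algebraMap_self, RingHom.id_apply, sub_self, nonunits_iff]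
  exact ⟨trivial, Or.inl rfl⟩

theorem dichR (ℓ : ℕ) [Fact ℓ.Prime] (j E : ℕ) (hj : 1 ≤ j) (h3 : 3 ≤ E * ℓ ^ j) :
    ∃ N : ℕ, ∀ (A k : Type) [CommRing A] [IsDomain A] [IsDiscreteValuationRing A]
      [IsAdicComplete (IsLocalRing.maximalIdeal A) A] [Finite (IsLocalRing.ResidueField A)]
      [Field k] [CharZero k] [Algebra A k] [IsFractionRing A k], IsUnit (ℓ : A) →
      N < Nat.card (IsLocalRing.ResidueField A) →
      ∀ g : A[X], IsUnit g.leadingCoeff → g.natDegree = E →
      ((expand A (ℓ ^ j) g).map (IsLocalRing.residue A)).Separable →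
      ∀ a d : k, a ≠ 0 → d ≠ 0 → NoRP ℓ (ℓ ^ j) a d (g.map (algebraMap A k)) →
      ∀ (F Ω : Type) [Field F] [Field Ω] [Algebra k F] [Algebra F Ω] [Algebra k Ω]
        [IsScalarTower k F Ω] [IsAlgClosed Ω] [Algebra.IsAlgebraic F Ω]
        (U : Set (ValuationSubring F)), (∀ O ∈ U, ∀ c : k, algebraMap k F c ∈ O) →
        ∀ (x y : F), algebraMap k F d * y ^ ℓ =
            aeval (algebraMap k F a * x ^ (ℓ ^ j)) (g.map (algebraMap A k)) →
          IsEmpty (Pool.Agent.W620.SC.GSection k F Ω U) := by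
  have hℓp : ℓ.Prime := Fact.out
  have hℓ0 : 0 < ℓ := hℓp.pos
  have hm0 : 0 < ℓ ^ j := pow_pos hℓ0 j
  obtain ⟨N, hN⟩ := dich ℓ (E * ℓ ^ j) hℓp.one_lt hℓp.prime.squarefree
    ((dvd_pow_self ℓ (by omega)).mul_left E) h3
  refine ⟨N, ?_⟩
  intro A k _ _ _ _ _ _ _ _ _ hu hcard g hlc hgE hs a d ha hd hno F Ω _ _ _ _ _ _ _ _ U hU x y hxy
  haveI : HenselianLocalRing A := hens A
  have hAk : Function.Injective (algebraMap A k) := IsFractionRing.injective A k
  obtain ⟨ϖ, hϖ⟩ := IsDiscreteValuationRing.exists_irreducible A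
  have hϖ0 : algebraMap A k ϖ ≠ 0 := by
    rw [Ne, map_eq_zero_iff _ hAk]
    exact hϖ.ne_zero
  obtain ⟨t, α, hat⟩ := Pool.Agent.W623.SecC.exists_unit_zpow ϖ hϖ a ha
  by_cases hα : ((ℓ ^ j : ℕ) : ℤ) ∣ α
  · obtain ⟨i, rfl⟩ := hα
    -- the scaled polynomial
    set f : A[X] := g.comp (C (t : A) * X ^ (ℓ ^ j)) with hf
    have hq : (C (t : A) * X ^ (ℓ ^ j) : A[X]).natDegree = ℓ ^ j :=
      natDegree_C_mul_X_pow _ _ t.ne_zero
    have hfd : f.natDegree = E * ℓ ^ j := by rw [hf, natDegree_comp, hq, hgE]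
    have hflc : IsUnit f.leadingCoeff := by
      rw [hf, leadingCoeff_comp (by rw [hq]; exact hm0.ne'), leadingCoeff_C_mul_X_pow]
      exact hlc.mul (t.isUnit.pow _)
    obtain ⟨u, hu'⟩ := hflc
    have hfm : (C ((u⁻¹ : Aˣ) : A) * f).Monic := by
      rw [Monic, leadingCoeff_mul, leadingCoeff_C, ← hu', Units.inv_mul]
    have hfs : (f.map (IsLocalRing.residue A)).Separable := by
      rw [hf, Polynomial.map_comp, Polynomial.map_mul, map_C, Polynomial.map_pow, map_X]
      refine sep_twist _ hm0 ?_ _ ?_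
      · rw [← map_expand]
        exact hs
      · rw [Ne, IsLocalRing.residue_eq_zero_iff]
        intro h
        exact (IsLocalRing.mem_maximalIdeal _).1 h t.isUnit
    have hfs1 : ((C ((u⁻¹ : Aˣ) : A) * f).map (IsLocalRing.residue A)).Separable := by
      rw [Polynomial.map_mul, map_C]
      exact hfs.unit_mul (isUnit_C.2 ((u⁻¹ : Aˣ).isUnit.map _))
    have hu0 : algebraMap A k ((u⁻¹ : Aˣ) : A) ≠ 0 := by
      rw [Ne, map_eq_zero_iff _ hAk]
      exact (u⁻¹ : Aˣ).ne_zero
    have hd1 : algebraMap A k ((u⁻¹ : Aˣ) : A) * d ≠ 0 := mul_ne_zero hu0 hd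
    have hfd1 : (C ((u⁻¹ : Aˣ) : A) * f).natDegree = E * ℓ ^ j := by
      rw [natDegree_C_mul (u⁻¹ : Aˣ).ne_zero, hfd]
    have hscale : ∀ {R : Type} [Field R] [Algebra k R] (z : R),
        aeval (algebraMap k R a * z ^ (ℓ ^ j)) (g.map (algebraMap A k)) =
        aeval (algebraMap k R (algebraMap A k ϖ ^ i) * z) (f.map (algebraMap A k)) := by
      intro R _ _ z
      rw [hf, Polynomial.map_comp, aeval_comp]
      congr 1
      rw [Polynomial.map_mul, map_C, Polynomial.map_pow, map_X, map_mul, aeval_C, map_pow, aeval_X,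
        mul_pow, ← map_pow (algebraMap k R), hat, map_mul, mul_assoc]
      congr 3
      rw [mul_comm ((ℓ ^ j : ℕ) : ℤ) i, zpow_mul, zpow_natCast]
    rcases hN A k hu hcard _ hfm hfs1 hfd1 (algebraMap A k ((u⁻¹ : Aˣ) : A) * d) hd1 with
      ⟨x', y', h1⟩ | h1
    · exfalso
      refine hno.pt ((algebraMap A k ϖ ^ i)⁻¹ * x') y' ?_
      have h2 := hscale (R := k) ((algebraMap A k ϖ ^ i)⁻¹ * x')
      rw [Algebra.algebraMap_self, RingHom.id_apply, RingHom.id_apply,
        mul_inv_cancel_left₀ (zpow_ne_zero _ hϖ0)] at h2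
      have h3 : eval (a * ((algebraMap A k ϖ ^ i)⁻¹ * x') ^ (ℓ ^ j)) (g.map (algebraMap A k)) =
          eval x' (f.map (algebraMap A k)) := h2
      rw [h3]
      rw [Polynomial.map_mul, map_C, eval_mul, eval_C, mul_assoc] at h1
      exact mul_left_cancel₀ hu0 h1
    · rw [Polynomial.map_mul, map_C] at h1
      obtain ⟨ℓ', -, ⟨n', hn'⟩, h2, -⟩ := h1.scale
      rw [hscale x] at hxy
      refine h2 F Ω U hU (algebraMap k F (algebraMap A k ϖ ^ i) * x) (y ^ n') (fun e => e.elim0) ?_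
        (fun e => e.elim0)
      rw [← pow_mul, mul_comm n' ℓ', ← hn']
      exact hxy
  · refine ⟨fun S => ?_⟩
    have hpoly : ∀ {R : Type} [Field R] [Algebra k R] (z : R),
        aeval (algebraMap k R a * z ^ (ℓ ^ j)) (g.map (algebraMap A k)) =
        aeval z ((g.map (algebraMap A k)).comp (C a * X ^ (ℓ ^ j))) := by
      intro R _ _ z
      rw [aeval_comp]
      congr 1
      rw [map_mul, aeval_C, map_pow, aeval_X]
    by_cases hx : Transcendental k x
    · obtain ⟨F₀, Ω₀, _, _, _, _, _, _, _, _, i, u, x₀, y₀, hu', hix, hiy, htop, S₀, hS,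
        hScompat, -⟩ := functX a_inrt ℓ k F Ω U hU S x y hx
          (walg hℓ0 d hd _ x y (hxy.trans (hpoly x)))
      have hx0 : Transcendental k x₀ := by
        intro halg
        apply hx
        rw [← hix]
        exact (isAlgebraic_algHom_iff i i.toRingHom.injective).2 halg
      have hxy0 : algebraMap k F₀ d * y₀ ^ ℓ =
          aeval (algebraMap k F₀ a * x₀ ^ (ℓ ^ j)) (g.map (algebraMap A k)) := by
        rw [hpoly]
        apply i.toRingHom.injective
        have e1 : i (algebraMap k F₀ d * y₀ ^ ℓ) =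
            i (aeval x₀ ((g.map (algebraMap A k)).comp (C a * X ^ (ℓ ^ j)))) := by
          rw [map_mul, map_pow, hiy, AlgHom.commutes, hxy, hpoly, ← hix, aeval_algHom_apply]
        exact e1
      obtain ⟨W, ⟨⟨h1, -, h2⟩, -⟩, -⟩ := Pool.Agent.R925.L.padicRM hu hj g hlc hs (by
          rw [natDegree_expand, hgE]
          exact h3) ϖ hϖ a d α hα (t : A) t.isUnit hat hd x₀ y₀ hx0 hxy0 htop
          (geomPro ℓ k F₀ Ω₀) le_rfl S₀ hS hScompat
      refine hno F₀ x₀ y₀ hxy0 (W.comap (algebraMap F₀ (geomPro ℓ k F₀ Ω₀))) h1 ?_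
      intro z hz
      obtain ⟨c, hc⟩ := h2 z hz
      refine ⟨c, ?_⟩
      rw [nonunits_iff] at hc ⊢
      refine ⟨hc.1, hc.2.imp (fun h => ?_) fun h h' => h ?_⟩
      · exact (map_eq_zero_iff _ (algebraMap F₀ (geomPro ℓ k F₀ Ω₀)).injective).1 h
      · have h4 : algebraMap F₀ (geomPro ℓ k F₀ Ω₀) (z - algebraMap k F₀ c)⁻¹ ∈ W := h'
        rwa [map_inv₀] at h4
    · rw [Transcendental, not_not] at hx
      obtain ⟨x', rfl⟩ := Pool.Agent.W623.SecE.alg_mem_base S x hx
      have hconst : algebraMap k F d * y ^ ℓ =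
          algebraMap k F ((g.map (algebraMap A k)).eval (a * x' ^ (ℓ ^ j))) := by
        rw [hxy, ← map_pow, ← map_mul, aeval_algebraMap_apply]
        rfl
      have h1 : y ^ ℓ = algebraMap k F ((g.map (algebraMap A k)).eval (a * x' ^ (ℓ ^ j)) / d) := by
        rw [map_div₀, eq_div_iff ((_root_.map_ne_zero _).2 hd)]
        linear_combination hconst
      have h2 : IsAlgebraic k y := by
        apply IsAlgebraic.of_pow hℓ0
        rw [h1]
        exact isAlgebraic_algebraMap _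
      obtain ⟨y', rfl⟩ := Pool.Agent.W623.SecE.alg_mem_base S y h2
      refine hno.pt x' y' ((algebraMap k F).injective ?_)
      rw [map_mul, map_pow, hconst]

end Pool.Agent.J4H44.WS
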